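import Pool.Agent.N658.FF.Stm5
import Pool.Agent.N413.FF.En

/-! # Project FF2 (helper658), job Thick: the interaction of the boxes of side `b` (by helper692) -/

set_option autoImplicit false

open scoped BigOperators InnerProductSpace Matrix Classical ComplexOrder

noncomputable section

namespace Pool.Agent.N692.FF

open Pool.Agent.TH235.PP Pool.Agent.N658.FF

section lift

variable {V W : Type} {d : ℕ}

/-- The operator `h` on the configurations of `W`, moved to `V` by `e`, identity off the image. -/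
def lf (e : W → V) (h : Matrix (W → Fin d) (W → Fin d) ℂ) :
    Matrix (V → Fin d) (V → Fin d) ℂ := fun s t =>
  if ∀ v, (∀ x, e x ≠ v) → s v = t v then h (fun x => s (e x)) (fun x => t (e x)) else 0

/-- The selection matrix of the configurations with the values `c` off the image. -/
def sl (e : W → V) (c : {v : V // ∀ x, e x ≠ v} → Fin d) :
    Matrix (W → Fin d) (V → Fin d) ℂ := fun p s =>
  if (∀ v : {v : V // ∀ x, e x ≠ v}, s v = c v) ∧ (fun x => s (e x)) = p then 1 else 0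

variable [Fintype V] [Fintype W]

/-- The part of the operator with the values `c` off the image. -/
def slP (e : W → V) (h : Matrix (W → Fin d) (W → Fin d) ℂ)
    (c : {v : V // ∀ x, e x ≠ v} → Fin d) :
    Matrix (V → Fin d) (V → Fin d) ℂ := (sl e c)ᴴ * h * sl e c

lemma slP_apply (e : W → V) (h : Matrix (W → Fin d) (W → Fin d) ℂ)
    (c : {v : V // ∀ x, e x ≠ v} → Fin d) (s t : V → Fin d) :
    slP e h c s t =
      if (∀ v : {v : V // ∀ x, e x ≠ v}, s v = c v) ∧
        (∀ v : {v : V // ∀ x, e x ≠ v}, t v = c v) then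
          h (fun x => s (e x)) (fun x => t (e x)) else 0 := by
  unfold slP
  rw [Matrix.mul_apply]
  simp only [Matrix.mul_apply, Matrix.conjTranspose_apply, sl]
  by_cases ht : ∀ v : {v : V // ∀ x, e x ≠ v}, t v = c v
  · rw [Finset.sum_eq_single (fun x => t (e x))]
    · rw [if_pos ⟨ht, rfl⟩, mul_one]
      by_cases hs : ∀ v : {v : V // ∀ x, e x ≠ v}, s v = c v
      · rw [if_pos ⟨hs, ht⟩, Finset.sum_eq_single (fun x => s (e x))]
        · rw [if_pos ⟨hs, rfl⟩, star_one, one_mul]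
        · intro p _ hp
          rw [if_neg (fun hh => hp hh.2.symm), star_zero, zero_mul]
        · intro hh
          exact absurd (Finset.mem_univ _) hh
      · rw [if_neg (fun hh => hs hh.1)]
        refine Finset.sum_eq_zero fun p _ => ?_
        rw [if_neg (fun hh => hs hh.1), star_zero, zero_mul]
    · intro q _ hq
      rw [if_neg (fun hh => hq hh.2.symm), mul_zero]
    · intro hh
      exact absurd (Finset.mem_univ _) hh
  · rw [if_neg (fun hh => ht hh.2)]
    refine Finset.sum_eq_zero fun p _ => ?_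
    rw [if_neg (fun hh => ht hh.1), mul_zero]

lemma lf_eq (e : W → V) (h : Matrix (W → Fin d) (W → Fin d) ℂ) :
    lf e h = ∑ c, slP e h c := by
  ext s t
  rw [Matrix.sum_apply]
  simp only [slP_apply]
  unfold lf
  by_cases hc : ∀ v, (∀ x, e x ≠ v) → s v = t v
  · rw [if_pos hc, Finset.sum_eq_single (fun v : {v : V // ∀ x, e x ≠ v} => s v)]
    · rw [if_pos ⟨fun _ => rfl, fun v => (hc v v.2).symm⟩]
    · intro c _ hne
      rw [if_neg]
      rintro ⟨h1, _⟩
      exact hne (funext fun v => (h1 v).symm)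
    · intro hh
      exact absurd (Finset.mem_univ _) hh
  · rw [if_neg hc]
    refine (Finset.sum_eq_zero fun c _ => ?_).symm
    rw [if_neg]
    rintro ⟨h1, h2⟩
    apply hc
    intro v hv
    rw [h1 ⟨v, hv⟩, h2 ⟨v, hv⟩]

lemma lf_psd (e : W → V) {h : Matrix (W → Fin d) (W → Fin d) ℂ} (hh : h.PosSemidef) :
    (lf e h).PosSemidef := by
  rw [lf_eq]
  exact Matrix.posSemidef_sum _ fun c _ => hh.conjTranspose_mul_mul_same (sl e c)

end lift

section lift2

variable {V W : Type} {d : ℕ}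

lemma lf_comp {U : Type} (f : V → U) (e : W → V) (hf : Function.Injective f)
    (h : Matrix (W → Fin d) (W → Fin d) ℂ) : lf f (lf e h) = lf (fun x => f (e x)) h := by
  ext s t
  unfold lf
  by_cases h1 : ∀ u, (∀ x, f (e x) ≠ u) → s u = t u
  · rw [if_pos h1, if_pos, if_pos]
    · intro v hv
      exact h1 (f v) fun x hx => hv x (hf hx)
    · intro u hu
      exact h1 u fun x => hu (e x)
  · rw [if_neg h1]
    by_cases h2 : ∀ u, (∀ x, f x ≠ u) → s u = t u
    · rw [if_pos h2, if_neg]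
      intro h3
      apply h1
      intro u hu
      by_cases h4 : ∃ v, f v = u
      · obtain ⟨v, rfl⟩ := h4
        exact h3 v fun x hx => hu x (by rw [hx])
      · push Not at h4
        exact h2 u h4
    · rw [if_neg h2]

lemma lf_sum {κ : Type} (e : W → V) (S : Finset κ) (h : κ → Matrix (W → Fin d) (W → Fin d) ℂ) :
    lf e (∑ z ∈ S, h z) = ∑ z ∈ S, lf e (h z) := by
  ext s t
  rw [Matrix.sum_apply]
  unfold lf
  by_cases h1 : ∀ u, (∀ x, e x ≠ u) → s u = t u
  · simp only [if_pos h1]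
    rw [Matrix.sum_apply]
  · simp only [if_neg h1, Finset.sum_const_zero]

end lift2

lemma term_eq_lf {d R L : ℕ} (h : BoxOp d R) (u : Site L) : term h u = lf (sh u) h := rfl

/-- The place of the point `x` of the small box at `z`. -/
def inn {R b : ℕ} (z : Fin b × Fin b) (x : Fin R × Fin R) : Fin (R + b) × Fin (R + b) :=
  (⟨(z.1 : ℕ) + (x.1 : ℕ), by omega⟩, ⟨(z.2 : ℕ) + (x.2 : ℕ), by omega⟩)

/-- The interaction of the boxes of side `b`. -/
def hb {d R : ℕ} (b : ℕ) (h : BoxOp d R) : BoxOp d (R + b) :=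
  ∑ z : Fin b × Fin b, lf (inn z) h

lemma hb_psd {d R : ℕ} (b : ℕ) {h : BoxOp d R} (hh : h.PosSemidef) : (hb b h).PosSemidef := by
  unfold hb
  exact Matrix.posSemidef_sum _ fun _ _ => lf_psd _ hh

lemma sh_inj {R L : ℕ} (hR : R ≤ L) (u : Site L) :
    Function.Injective (sh u : Fin R × Fin R → Site L) := by
  rintro ⟨x1, x2⟩ ⟨y1, y2⟩ hxy
  unfold sh at hxy
  have h1 := congrArg Prod.fst hxy
  have h2 := congrArg Prod.snd hxy
  simp only [add_right_inj] at h1 h2
  have key : ∀ a c : Fin R, ((a : ℕ) : ZMod L) = ((c : ℕ) : ZMod L) → a = c := by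
    intro a c hac
    rw [ZMod.natCast_eq_natCast_iff] at hac
    exact Fin.ext (Nat.ModEq.eq_of_lt_of_lt hac (by omega) (by omega))
  rw [key _ _ h1, key _ _ h2]

lemma sh_inn {R b L : ℕ} (u : Site L) (z : Fin b × Fin b) (x : Fin R × Fin R) :
    sh u (inn z x) = sh (sh u z) x := by
  unfold sh inn
  ext <;> (push_cast; ring)

lemma term_hb {d R L : ℕ} (b : ℕ) (h : BoxOp d R) (hL : R + b ≤ L) (u : Site L) :
    term (hb b h) u = ∑ z : Fin b × Fin b, term h (sh u z) := by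
  rw [term_eq_lf]
  unfold hb
  rw [lf_sum]
  refine Finset.sum_congr rfl fun z _ => ?_
  rw [lf_comp _ _ (sh_inj hL u), term_eq_lf]
  congr 1
  funext x
  exact sh_inn u z x

lemma ham_hb {d R L : ℕ} [NeZero L] (b : ℕ) (h : BoxOp d R) (hL : R + b ≤ L) :
    ham (hb b h) L = ((b : ℂ) ^ 2) • ham h L := by
  unfold ham
  simp only [term_hb b h hL]
  rw [Finset.sum_comm]
  have h1 : ∀ z : Fin b × Fin b, ∑ y : Site L, term h (sh y z) = ∑ u : Site L, term h u := by
    intro z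
    exact Equiv.sum_comp (Equiv.addRight ((((z.1 : ℕ) : ZMod L), ((z.2 : ℕ) : ZMod L)) : Site L))
      (fun u : Site L => term h u)
  rw [Finset.sum_congr rfl fun z _ => h1 z, Finset.sum_const, Finset.card_univ,
    Fintype.card_prod, Fintype.card_fin, ← Nat.cast_smul_eq_nsmul ℂ]
  push_cast
  rw [sq]

lemma sum_image_le' {α β : Type} [DecidableEq α] (g : β → α) (s : Finset β) (f : α → ℝ)
    (hf : ∀ a, 0 ≤ f a) : ∑ a ∈ s.image g, f a ≤ ∑ i ∈ s, f (g i) := by
  rw [Finset.sum_comp f g]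
  refine Finset.sum_le_sum fun a ha => ?_
  obtain ⟨i, hi, rfl⟩ := Finset.mem_image.1 ha
  have h1 : 1 ≤ (s.filter fun j => g j = g i).card :=
    Finset.card_pos.2 ⟨i, Finset.mem_filter.2 ⟨hi, rfl⟩⟩
  rw [nsmul_eq_mul]
  have h2 : (1 : ℝ) ≤ (s.filter fun j => g j = g i).card := by exact_mod_cast h1
  nlinarith [hf (g i)]

lemma thick_eq {L : ℕ} (b : ℕ) (A : Finset (Site L)) :
    thick b A = (A ×ˢ (Finset.univ : Finset (Fin b × Fin b))).image fun p => sh p.1 p.2 := by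
  unfold thick
  ext u
  rw [Finset.mem_biUnion, Finset.mem_image]
  constructor
  · rintro ⟨y, hy, h1⟩
    obtain ⟨z, _, hz⟩ := Finset.mem_image.1 h1
    exact ⟨(y, z), Finset.mem_product.2 ⟨hy, Finset.mem_univ _⟩, hz⟩
  · rintro ⟨⟨y, z⟩, hy, hz⟩
    exact ⟨y, (Finset.mem_product.1 hy).1, Finset.mem_image.2 ⟨z, Finset.mem_univ _, hz⟩⟩

lemma ip_sum {n κ : Type} [Fintype n] (S : Finset κ) (x : n → ℂ) (f : κ → n → ℂ) :
    ip x (∑ z ∈ S, f z) = ∑ z ∈ S, ip x (f z) := by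
  unfold ip
  rw [Finset.sum_comm]
  refine Finset.sum_congr rfl fun s _ => ?_
  rw [Finset.sum_apply, Finset.mul_sum]

lemma gap_hb {d R L : ℕ} [NeZero L] (b : ℕ) {h : BoxOp d R} (hh : h.PosSemidef)
    (hL : R + b ≤ L) (Δ : ℝ) (hg : GapThick h L b Δ) : GapAll (hb b h) L Δ := by
  intro A φ hφ
  have h1 := hg A φ (by
    intro ψ hψ
    apply hφ
    intro y hy
    rw [term_hb b h hL, Matrix.sum_mulVec]
    refine Finset.sum_eq_zero fun z _ => hψ _ ?_
    rw [thick_eq]
    exact Finset.mem_image.2 ⟨(y, z), Finset.mem_product.2 ⟨hy, Finset.mem_univ _⟩, rfl⟩)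
  refine h1.trans ?_
  rw [thick_eq]
  refine (sum_image_le' _ _ _ fun u =>
    Pool.Agent.N413.FF.re_nonneg (Pool.Agent.N413.FF.term_psd hh u) φ).trans ?_
  rw [Finset.sum_product]
  refine le_of_eq (Finset.sum_congr rfl fun y _ => ?_)
  rw [term_hb b h hL, Matrix.sum_mulVec, ip_sum, Complex.re_sum]

lemma term_zero {d R L : ℕ} [NeZero L] (b : ℕ) (hb1 : 1 ≤ b) {h : BoxOp d R}
    (hh : h.PosSemidef) (hL : R + b ≤ L) (u : Site L) (ψ : (Site L → Fin d) → ℂ)
    (h0 : term (hb b h) u *ᵥ ψ = 0) : term h u *ᵥ ψ = 0 := by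
  have h1 : (ip ψ (term (hb b h) u *ᵥ ψ)).re = 0 := by
    rw [h0]
    unfold ip
    simp
  rw [term_hb b h hL, Matrix.sum_mulVec, ip_sum, Complex.re_sum] at h1
  have h2 := (Finset.sum_eq_zero_iff_of_nonneg fun z _ =>
    Pool.Agent.N413.FF.re_nonneg (Pool.Agent.N413.FF.term_psd hh (sh u z)) ψ).1 h1
    (⟨0, hb1⟩, ⟨0, hb1⟩) (Finset.mem_univ _)
  have h3 : sh u ((⟨0, hb1⟩, ⟨0, hb1⟩) : Fin b × Fin b) = u := by
    unfold sh
    ext <;> simp
  rw [h3] at h2
  have h4 := Pool.Agent.N413.FF.term_psd hh u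
  have h5 : star ψ ⬝ᵥ (term h u *ᵥ ψ) = 0 := by
    have h6 := h4.dotProduct_mulVec_nonneg ψ
    have h7 : ip ψ (term h u *ᵥ ψ) = star ψ ⬝ᵥ (term h u *ᵥ ψ) := rfl
    rw [← h7] at h6 ⊢
    exact Complex.ext h2 (Complex.le_def.1 h6).2.symm
  exact (h4.dotProduct_mulVec_zero_iff ψ).1 h5

lemma off_hb {d R L : ℕ} [NeZero L] (b : ℕ) (hR : 1 ≤ R) (hb1 : 1 ≤ b) {h : BoxOp d R}
    (hh : h.PosSemidef) (hL : R + b ≤ L) (w : ℕ) (C : Finset (Site L)) :
    offSpace (hb b h) L w C ≤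
      offSpace h L (w + 2 * b) (C.image fun c => (c.1 - (b : ZMod L), c.2 - (b : ZMod L))) := by
  intro ψ hψ u hu
  apply term_zero b hb1 hh hL u ψ
  apply hψ
  intro p c hc q hpq
  have key : ∀ (p : Fin (R + b)) (q : Fin w), ∃ (x : Fin R) (y : Fin (w + 2 * b)),
      ∀ a e : ZMod L, a + ((p : ℕ) : ZMod L) = e + ((q : ℕ) : ZMod L) →
        a + ((x : ℕ) : ZMod L) = e - (b : ZMod L) + ((y : ℕ) : ZMod L) := by
    intro p q
    refine ⟨⟨min (p : ℕ) (R - 1), by omega⟩,
      ⟨(q : ℕ) + b - ((p : ℕ) - min (p : ℕ) (R - 1)), by omega⟩, ?_⟩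
    intro a e hae
    have h1 : (p : ℕ) - min (p : ℕ) (R - 1) ≤ (q : ℕ) + b := by omega
    have h2 : min (p : ℕ) (R - 1) ≤ (p : ℕ) := min_le_left _ _
    simp only
    rw [Nat.cast_sub h1, Nat.cast_sub h2]
    push_cast
    have h3 : a = e + ((q : ℕ) : ZMod L) - ((p : ℕ) : ZMod L) := by
      rw [← hae]; ring
    rw [h3]
    ring
  obtain ⟨x1, y1, hk1⟩ := key p.1 q.1
  obtain ⟨x2, y2, hk2⟩ := key p.2 q.2
  refine hu (x1, x2) (c.1 - (b : ZMod L), c.2 - (b : ZMod L))
    (Finset.mem_image.2 ⟨c, hc, rfl⟩) (y1, y2) ?_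
  unfold sh at hpq ⊢
  exact Prod.ext (hk1 _ _ (congrArg Prod.fst hpq)) (hk2 _ _ (congrArg Prod.snd hpq))

theorem thickB : StmThick := by
  intro d R b h hR hb1 hh
  exact ⟨hb b h, hb_psd b hh, fun L _ hL => ⟨ham_hb b h hL, fun Δ hg => gap_hb b hh hL Δ hg,
    fun w C => off_hb b hR hb1 hh hL w C⟩⟩

end Pool.Agent.N692.FF
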